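import Mathlib
import Pool.Agent.H6.CT2

/-!
# Block H of MP_103a5c_GP, part A: logarithmic density bound, orthogonality, continuity
-/

open MeasureTheory Set Filter Topology
open scoped Real Interval

namespace Pool.Agent.H26.GH

open Pool.Agent.H6

/-- local density: logarithmic bound -/
theorem RR_log {ι : Type*} {γ w : ι → ℝ} {A : ℝ → ℝ} (hP : PoissonInput γ w 1 A) :
    ∃ K, 0 ≤ K ∧ ∀ t, RR γ w t ≤ K + (1 / 2) * Real.log (1 + |t|) := by
  obtain ⟨C, hC⟩ := hP.arch1
  set M := ∑' n : ℕ, ArithmeticFunction.vonMangoldt n * (n : ℝ) ^ (-(1 / 2 + (1 : ℝ))) with hM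
  have hM0 : 0 ≤ M := tsum_nonneg (PoissonInput.coeff_nonneg 1)
  have hC0 : 0 ≤ C := (abs_nonneg _).trans (hC 0)
  refine ⟨C + M, by positivity, fun t => ?_⟩
  have h1 := (hP.hasSum t).tsum_eq
  have h2 : RR γ w t = ∑' i, w i * pk 1 (t - γ i) := by
    unfold RR
    congr 1
    ext i
    unfold pk
    rw [one_pow, mul_one_div]
  rw [h2, h1]
  have h3 := hP.abs_DD_le t
  unfold PoissonInput.DD at h3
  have h4 := (abs_le.mp (hC t)).2
  have h5 := (abs_le.mp h3).1
  linarith

/-- exact evaluation of the integral of a scaled even function against a cosine -/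
theorem integral_cos_mul_scaled {ψ : ℝ → ℝ} (hi : Integrable ψ) (he : ∀ u, ψ (-u) = ψ u) {L : ℝ} (hL : 0 < L)
    (lam x : ℝ) :
    ∫ t, Real.cos (lam * t) * ψ (L * (t - x) / (2 * π)) = (2 * π / L) * (Real.cos (lam * x) * cosT ψ (lam / L)) := by
  have h1 : ∀ t, Real.cos (lam * t) * ψ (L * (t - x) / (2 * π))
      = (fun v => (fun u => Real.cos (2 * π * (u + L * x / (2 * π)) * (lam / L)) * ψ u) (L / (2 * π) * v)) (t - x) := by
    intro t
    simp only
    congr 1
    · congr 1
      field_simp
      ring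
    · congr 1
      ring
  rw [integral_congr_ae (ae_of_all _ h1), integral_sub_right_eq_self
    (fun v => (fun u => Real.cos (2 * π * (u + L * x / (2 * π)) * (lam / L)) * ψ u) (L / (2 * π) * v)) x,
    Measure.integral_comp_mul_left (fun u => Real.cos (2 * π * (u + L * x / (2 * π)) * (lam / L)) * ψ u) (L / (2 * π)),
    smul_eq_mul, abs_of_pos (by positivity), inv_div]
  congr 1
  have hcos : Integrable (fun u => ψ u * Real.cos (2 * π * u * (lam / L))) := integrable_mul_cos hi _
  have hsin : Integrable (fun u => ψ u * Real.sin (2 * π * u * (lam / L))) := by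
    apply hi.mul_bdd (c := 1)
    · exact (by fun_prop : Continuous fun u : ℝ => Real.sin (2 * π * u * (lam / L))).aestronglyMeasurable
    · exact ae_of_all _ fun u => Real.abs_sin_le_one _
  have e1 : ∀ u, Real.cos (2 * π * (u + L * x / (2 * π)) * (lam / L)) * ψ u
      = Real.cos (lam * x) * (ψ u * Real.cos (2 * π * u * (lam / L)))
        - Real.sin (lam * x) * (ψ u * Real.sin (2 * π * u * (lam / L))) := by
    intro u
    have : 2 * π * (u + L * x / (2 * π)) * (lam / L) = 2 * π * u * (lam / L) + lam * x := by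
      field_simp
    rw [this, Real.cos_add]
    ring
  have e0 : ∫ u, ψ u * Real.sin (2 * π * u * (lam / L)) = 0 := by
    have := integral_mul_sin_eq_zero he (2 * π * (lam / L))
    rw [← this]
    congr 1
    ext u
    congr 2
    ring
  rw [integral_congr_ae (ae_of_all _ e1), integral_sub (hcos.const_mul _) (hsin.const_mul _),
    integral_const_mul, integral_const_mul, e0, mul_zero, sub_zero]
  rfl

/-- continuity of the full sum for decaying functions -/
theorem continuous_SS_of_decay {ι : Type*} {γ w : ι → ℝ} {F : ℝ → Finset ι} {CR : ℝ} (O : Ordinates ι γ w F CR)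
    {φ : ℝ → ℝ} (hc : Continuous φ) {C : ℝ} (hC : 0 ≤ C) (hd : ∀ u, |φ u| ≤ C / (1 + u ^ 2) ^ 2)
    {L : ℝ} (hL : 2 * π ≤ L) : Continuous (SS γ w φ L) := by
  rw [continuous_iff_continuousAt]
  intro t0
  unfold ContinuousAt SS
  apply tendsto_tsum_of_dominated_convergence (bound := fun i => (4 * C) * (w i / (1 + (t0 - γ i) ^ 2)))
  · exact (O.summable t0).mul_left _
  · intro i
    have : Continuous fun t => w i * φ (L * (t - γ i) / (2 * π)) := by fun_prop
    exact this.tendsto t0
  · have hball : ∀ᶠ t in 𝓝 t0, |t - t0| < 1 := by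
      have := Metric.ball_mem_nhds t0 one_pos
      filter_upwards [this] with t ht
      rwa [Metric.mem_ball, Real.dist_eq] at ht
    filter_upwards [hball] with t ht i
    rw [Real.norm_eq_abs, abs_mul, abs_of_nonneg (O.w_nonneg i)]
    have h1 := decay_scale' hC hd hL (t - γ i)
    have h2 : C / (1 + (t - γ i) ^ 2) ≤ 4 * C / (1 + (t0 - γ i) ^ 2) := by
      rw [div_le_div_iff₀ (by positivity) (by positivity)]
      have h3 : (t - t0) ^ 2 ≤ 1 := by
        rw [← sq_abs]
        nlinarith [abs_nonneg (t - t0)]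
      have h4 : 1 + (t0 - γ i) ^ 2 ≤ 4 * (1 + (t - γ i) ^ 2) := by
        nlinarith [sq_nonneg ((t - γ i) + (t - t0)), sq_nonneg (t - γ i)]
      nlinarith
    calc w i * |φ (L * (t - γ i) / (2 * π))| ≤ w i * (4 * C / (1 + (t0 - γ i) ^ 2)) :=
          mul_le_mul_of_nonneg_left (h1.trans h2) (O.w_nonneg i)
      _ = _ := by ring

end Pool.Agent.H26.GH
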