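import Mathlib
import Pool.Agent.H26.GH.A

/-!
# Block H of MP_103a5c_GP, part B: the high frequencies cost only the edges
-/

open MeasureTheory Set Filter Topology
open scoped Real Interval

namespace Pool.Agent.H26.GH

open Pool.Agent.H6

/-- real trigonometric polynomial -/
noncomputable def trig {κ : Type*} (J : Finset κ) (c lam : κ → ℝ) (t : ℝ) : ℝ :=
  ∑ j ∈ J, c j * Real.cos (lam j * t)

theorem continuous_trig {κ : Type*} (J : Finset κ) (c lam : κ → ℝ) : Continuous (trig J c lam) := by
  unfold trig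
  fun_prop

theorem abs_trig_le {κ : Type*} (J : Finset κ) (c lam : κ → ℝ) (t : ℝ) : |trig J c lam t| ≤ ∑ j ∈ J, |c j| := by
  unfold trig
  refine (Finset.abs_sum_le_sum_abs _ _).trans ?_
  apply Finset.sum_le_sum
  intro j _
  rw [abs_mul]
  exact mul_le_of_le_one_right (abs_nonneg _) (Real.abs_cos_le_one _)

theorem integral_trig_Sin {ι κ : Type*} {γ w : ι → ℝ} {ψ : ℝ → ℝ} (hi : Integrable ψ) (he : ∀ u, ψ (-u) = ψ u)
    {L : ℝ} (hL : 0 < L) (G : Finset ι) (J : Finset κ) (c lam : κ → ℝ)
    (h0 : ∀ j ∈ J, cosT ψ (lam j / L) = 0) : ∫ t, trig J c lam t * Sin γ w G ψ L t = 0 := by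
  unfold trig Sin
  simp_rw [Finset.sum_mul_sum]
  have hint : ∀ j i, Integrable (fun t => c j * Real.cos (lam j * t) * (w i * ψ (L * (t - γ i) / (2 * π)))) := by
    intro j i
    have h1 : Integrable (fun t => w i * ψ (L * (t - γ i) / (2 * π)) * (c j * Real.cos (lam j * t))) := by
      apply Integrable.mul_bdd (c := |c j|) ((integrable_scaled hi hL _).const_mul _)
      · exact (by fun_prop : Continuous fun t : ℝ => c j * Real.cos (lam j * t)).aestronglyMeasurable
      · apply ae_of_all
        intro t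
        rw [Real.norm_eq_abs, abs_mul]
        exact mul_le_of_le_one_right (abs_nonneg _) (Real.abs_cos_le_one _)
    apply h1.congr
    exact ae_of_all _ fun t => by ring
  rw [integral_finsetSum _ (fun j _ => integrable_finsetSum _ fun i _ => hint j i)]
  apply Finset.sum_eq_zero
  intro j hj
  rw [integral_finsetSum _ (fun i _ => hint j i)]
  apply Finset.sum_eq_zero
  intro i _
  have e : ∀ t, c j * Real.cos (lam j * t) * (w i * ψ (L * (t - γ i) / (2 * π)))
      = (c j * w i) * (Real.cos (lam j * t) * ψ (L * (t - γ i) / (2 * π))) := by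
    intro t; ring
  simp_rw [e]
  rw [integral_const_mul, integral_cos_mul_scaled hi he hL, h0 j hj]
  ring

/-- a trigonometric polynomial against the sum over zeros of a function without low frequencies -/
theorem high_part {ι κ : Type*} {γ w : ι → ℝ} {F : ℝ → Finset ι} {CR : ℝ} (O : Ordinates ι γ w F CR)
    {ψ : ℝ → ℝ} (hc : Continuous ψ) (he : ∀ u, ψ (-u) = ψ u) {C : ℝ} (hC : 0 ≤ C)
    (hd : ∀ u, |ψ u| ≤ C / (1 + u ^ 2) ^ 2) {L : ℝ} (hL : 2 * π ≤ L) {T : ℝ} (hT : 0 ≤ T)
    (J : Finset κ) (c lam : κ → ℝ) (h0 : ∀ j ∈ J, cosT ψ (lam j / L) = 0) :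
    |∫ t in (0 : ℝ)..T, trig J c lam t * SS γ w ψ L t|
      ≤ 2 * π * C * (RR γ w T + RR γ w 0) * ∑ j ∈ J, |c j| := by
  have hL0 : 0 < L := lt_of_lt_of_le (by positivity) hL
  have hi : Integrable ψ := integrable_of_decay hc hC hd
  set S := ∑ j ∈ J, |c j| with hS
  have hS0 : 0 ≤ S := Finset.sum_nonneg fun j _ => abs_nonneg _
  have hcontS : Continuous (SS γ w ψ L) := continuous_SS_of_decay O hc hC hd hL
  have hcontN : Continuous (Sin γ w (F T) ψ L) := continuous_Sin hc _ _
  have hcontA := continuous_trig J c lam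
  have hBBi := Ordinates.integrable_BB (γ := γ) (w := w) T
  have hBBc : Continuous (BB γ w T) := by
    unfold BB
    have h1 : ∀ t : ℝ, (1 + (T - t) ^ 2) ≠ 0 := fun t => by positivity
    have h2 : ∀ t : ℝ, (1 + (0 - t) ^ 2) ≠ 0 := fun t => by positivity
    exact (continuous_const.mul (Continuous.inv₀ (by fun_prop) h1)).add
      (continuous_const.mul (Continuous.inv₀ (by fun_prop) h2))
  have hbb : ∀ s : Set ℝ, MeasurableSet s → ∫ t in s, S * (C * BB γ w T t) ≤ S * (C * (π * (RR γ w T + RR γ w 0))) := by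
    intro s hs
    rw [← Ordinates.integral_BB, ← integral_const_mul C, ← integral_const_mul S]
    apply setIntegral_le_integral ((hBBi.const_mul C).const_mul S)
    exact ae_of_all _ fun t => mul_nonneg hS0 (mul_nonneg hC (O.BB_nonneg T t))
  -- difference on `[0, T]`
  have hd1 : |∫ t in (0 : ℝ)..T, trig J c lam t * (SS γ w ψ L t - Sin γ w (F T) ψ L t)|
      ≤ S * (C * (π * (RR γ w T + RR γ w 0))) := by
    rw [intervalIntegral.integral_of_le hT]
    refine le_trans ?_ (hbb (Ioc 0 T) measurableSet_Ioc)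
    rw [← Real.norm_eq_abs]
    apply norm_integral_le_of_norm_le ((hBBi.const_mul C).const_mul S).integrableOn
    rw [ae_restrict_iff' measurableSet_Ioc]
    apply ae_of_all
    intro t ht
    rw [Real.norm_eq_abs, abs_mul]
    apply mul_le_mul (abs_trig_le J c lam t) _ (abs_nonneg _) hS0
    exact O.abs_Sout_le_edge hC hd hL ⟨ht.1.le, ht.2⟩
  -- the finite sum
  have hfull : Integrable (fun t => trig J c lam t * Sin γ w (F T) ψ L t) := by
    have h1 : Integrable (fun t => Sin γ w (F T) ψ L t * trig J c lam t) := by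
      apply Integrable.mul_bdd (c := S) (integrable_Sin hi hL0 (F T))
      · exact hcontA.aestronglyMeasurable
      · exact ae_of_all _ fun t => by rw [Real.norm_eq_abs]; exact abs_trig_le J c lam t
    apply h1.congr
    exact ae_of_all _ fun t => by ring
  have hd2 : |∫ t in (0 : ℝ)..T, trig J c lam t * Sin γ w (F T) ψ L t|
      ≤ S * (C * (π * (RR γ w T + RR γ w 0))) := by
    rw [intervalIntegral.integral_of_le hT]
    have h1 := integral_add_compl (measurableSet_Ioc (a := (0 : ℝ)) (b := T)) hfull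
    rw [integral_trig_Sin hi he hL0 (F T) J c lam h0] at h1
    have h2 : ∫ t in Ioc 0 T, trig J c lam t * Sin γ w (F T) ψ L t
        = -∫ t in (Ioc 0 T)ᶜ, trig J c lam t * Sin γ w (F T) ψ L t := by linarith
    rw [h2, abs_neg]
    refine le_trans ?_ (hbb (Ioc 0 T)ᶜ measurableSet_Ioc.compl)
    rw [← Real.norm_eq_abs]
    apply norm_integral_le_of_norm_le ((hBBi.const_mul C).const_mul S).integrableOn
    have hne : ∀ᵐ t : ℝ, t ≠ 0 := by
      have := measure_singleton (μ := (volume : Measure ℝ)) (0 : ℝ)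
      rw [ae_iff]
      simpa using this
    rw [ae_restrict_iff' measurableSet_Ioc.compl]
    filter_upwards [hne] with t ht0 ht
    rw [Real.norm_eq_abs, abs_mul]
    apply mul_le_mul (abs_trig_le J c lam t) _ (abs_nonneg _) hS0
    apply O.abs_Sin_le_edge hC hd hL
    rw [mem_compl_iff, mem_Ioc, not_and_or, not_lt, not_le] at ht
    rcases ht with ht | ht
    · exact Or.inl (lt_of_le_of_ne ht ht0)
    · exact Or.inr ht
  have hsplit : ∫ t in (0 : ℝ)..T, trig J c lam t * SS γ w ψ L t
      = (∫ t in (0 : ℝ)..T, trig J c lam t * (SS γ w ψ L t - Sin γ w (F T) ψ L t))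
        + ∫ t in (0 : ℝ)..T, trig J c lam t * Sin γ w (F T) ψ L t := by
    rw [← intervalIntegral.integral_add]
    · congr 1
      ext t
      ring
    · exact (hcontA.mul (hcontS.sub hcontN)).intervalIntegrable _ _
    · exact (hcontA.mul hcontN).intervalIntegrable _ _
  rw [hsplit]
  refine (abs_add_le _ _).trans ?_
  calc _ ≤ S * (C * (π * (RR γ w T + RR γ w 0))) + S * (C * (π * (RR γ w T + RR γ w 0))) := add_le_add hd1 hd2
    _ = _ := by ring

end Pool.Agent.H26.GH
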