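import Mathlib
import Pool.Agent.H26.GH.B
import Pool.Agent.H6.Nice

/-!
# Block H of MP_103a5c_GP, part C: splitting a window function into low and high frequencies
-/

open MeasureTheory Set Filter Topology FourierTransform
open scoped Real Interval ContDiff

namespace Pool.Agent.H26.GH

open Pool.Agent.H6

/-- the cosine transform of a nice function is smooth -/
theorem contDiff_cosT {ψ : ℝ → ℝ} (h : Nice ψ) : ContDiff ℝ ∞ (cosT ψ) := by
  have hi : Integrable ψ := h.integrable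
  have hF : ContDiff ℝ ∞ (𝓕 (fun u => (ψ u : ℂ))) := by
    apply Real.contDiff_fourier
    intro n _
    have hcs : HasCompactSupport (fun u : ℝ => |u| ^ n * |ψ u|) := by
      have := h.hasCompactSupport
      apply this.mono
      intro u hu
      rw [Function.mem_support] at hu ⊢
      intro h0
      apply hu
      rw [h0]
      simp
    have hc : Continuous (fun u : ℝ => |u| ^ n * |ψ u|) := by
      have := h.continuous
      fun_prop
    have := hc.integrable_of_hasCompactSupport hcs (μ := volume)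
    simpa [Complex.norm_real] using this
  have heq : cosT ψ = fun ξ => (𝓕 (fun u => (ψ u : ℂ)) ξ).re := by
    ext ξ
    rw [fourier_ofReal_even hi h.even, Complex.ofReal_re]
  rw [heq]
  exact Complex.reCLM.contDiff.comp hF

/-- low and high frequencies of a window function -/
theorem exists_split {ψ : ℝ → ℝ} (hψ : Nice ψ) {s0 s1 : ℝ} (h0 : 0 < s0) (h01 : s0 < s1) :
    ∃ ψl : ℝ → ℝ, TestFn s1 ψl ∧ (∀ ξ, |ξ| ≤ s0 → cosT ψl ξ = cosT ψ ξ) ∧
      (∀ ξ, |cosT ψl ξ| ≤ |cosT ψ ξ|) ∧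
      Continuous (fun u => ψ u - ψl u) ∧ (∀ u, ψ (-u) - ψl (-u) = ψ u - ψl u) ∧
      (∀ ξ, |ξ| ≤ s0 → cosT (fun u => ψ u - ψl u) ξ = 0) ∧
      (∃ C, 0 ≤ C ∧ ∀ u, |ψ u - ψl u| ≤ C / (1 + u ^ 2) ^ 2) := by
  obtain ⟨g, hg, hgs, hg1, hg0, hgle⟩ := exists_nice_plateau h0 h01
  set χ : ℝ → ℝ := fun x => g x * cosT ψ x with hχ
  have hχn : Nice χ := hg.mul (contDiff_cosT hψ) (cosT_neg ψ)
  have hχs : ∀ x, s1 ≤ |x| → χ x = 0 := fun x hx => by simp [hχ, hgs x hx]
  have hT : TestFn s1 (cosT χ) := testFn_cosT hχn.smooth hχn.even hχs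
  have hinv : ∀ ξ, cosT (cosT χ) ξ = χ ξ := hχn.inv
  obtain ⟨B, hB0, hB⟩ := hψ.bounded
  obtain ⟨s, hs0, hs⟩ := hψ.supp
  obtain ⟨C, hC0, hC⟩ := hT.decay
  refine ⟨cosT χ, hT, ?_, ?_, ?_, ?_, ?_, ?_⟩
  · intro ξ hξ
    rw [hinv, hχ]
    simp [hg1 ξ hξ]
  · intro ξ
    rw [hinv, hχ]
    simp only
    rw [abs_mul, abs_of_nonneg (hg0 ξ)]
    exact mul_le_of_le_one_left (abs_nonneg _) (hgle ξ)
  · exact hψ.continuous.sub hT.cont
  · intro u
    rw [hψ.even, hT.even]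
  · intro ξ hξ
    rw [cosT_sub hψ.integrable hT.integrable, hinv, hχ]
    simp [hg1 ξ hξ]
  · refine ⟨B * (1 + s ^ 2) ^ 2 + C, by positivity, fun u => ?_⟩
    have h1 : |ψ u| ≤ B * (1 + s ^ 2) ^ 2 / (1 + u ^ 2) ^ 2 := by
      rcases le_or_gt s |u| with hu | hu
      · rw [hs u hu, abs_zero]
        positivity
      · rw [le_div_iff₀ (by positivity)]
        have h2 : u ^ 2 ≤ s ^ 2 := by
          rw [← sq_abs u]
          exact pow_le_pow_left₀ (abs_nonneg _) hu.le 2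
        have h3 : (1 + u ^ 2) ^ 2 ≤ (1 + s ^ 2) ^ 2 := pow_le_pow_left₀ (by positivity) (by linarith) 2
        exact mul_le_mul (hB u) h3 (by positivity) hB0
    calc |ψ u - cosT χ u| ≤ |ψ u| + |cosT χ u| := abs_sub _ _
      _ ≤ B * (1 + s ^ 2) ^ 2 / (1 + u ^ 2) ^ 2 + C / (1 + u ^ 2) ^ 2 := add_le_add h1 (hC u)
      _ = _ := by ring

end Pool.Agent.H26.GH
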