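import Mathlib
import Pool.Agent.H26.GH.C

/-!
# Block H of MP_103a5c_GP, part D: the explicit formula against a short trigonometric polynomial
-/

open MeasureTheory Set Filter Topology
open scoped Real Interval

namespace Pool.Agent.H26.GH

open Pool.Agent.H6

variable {ι : Type*} [Countable ι] {γ w : ι → ℝ} {F : ℝ → Finset ι} {CR : ℝ}

/-- `a T` is eventually a real trigonometric polynomial with frequencies at most `s0 log T` and sum of
coefficients at most `T^(1-ε)`. -/
def ShortPoly (s0 ε : ℝ) (a : ℝ → ℝ → ℝ) : Prop :=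
  ∀ᶠ T in atTop, ∃ (J : Finset ℕ) (c lam : ℕ → ℝ), (∀ t, a T t = trig J c lam t) ∧
    (∀ j ∈ J, |lam j| ≤ s0 * Real.log T) ∧ ∑ j ∈ J, |c j| ≤ T ^ (1 - ε)

theorem tendsto_high (I : Inputs γ w F CR) {ψ : ℝ → ℝ} (hc : Continuous ψ) (he : ∀ u, ψ (-u) = ψ u)
    {C : ℝ} (hC : 0 ≤ C) (hd : ∀ u, |ψ u| ≤ C / (1 + u ^ 2) ^ 2) {s0 : ℝ}
    (h0 : ∀ ξ, |ξ| ≤ s0 → cosT ψ ξ = 0) {ε : ℝ} (hε : 0 < ε) {a : ℝ → ℝ → ℝ} (ha : ShortPoly s0 ε a) :
    Tendsto (fun T => avg T (fun t => a T t * SS γ w ψ (Real.log T) t)) atTop (𝓝 0) := by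
  obtain ⟨A, hP⟩ := I.poisson 1 (by norm_num)
  obtain ⟨K, hK0, hK⟩ := RR_log hP
  have hlog := Real.tendsto_log_atTop
  have hb : ∀ᶠ T in atTop, |avg T (fun t => a T t * SS γ w ψ (Real.log T) t)|
      ≤ 2 * π * C * (2 * K + 1 + Real.log T) * T ^ (-ε) := by
    filter_upwards [ha, eventually_ge_atTop (1 : ℝ), hlog.eventually_ge_atTop (2 * π)] with T hT hT1 hTL
    obtain ⟨J, c, lam, h1, h2, h3⟩ := hT
    have hT0 : 0 < T := by linarith
    have hL0 : 0 < Real.log T := lt_of_lt_of_le (by positivity) hTL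
    have h4 := high_part I.ord hc he hC hd hTL hT0.le J c lam (fun j hj => h0 _ (by
      rw [abs_div, abs_of_pos hL0, div_le_iff₀ hL0]
      exact h2 j hj))
    have e1 : (fun t => a T t * SS γ w ψ (Real.log T) t) = fun t => trig J c lam t * SS γ w ψ (Real.log T) t := by
      ext t; rw [h1 t]
    rw [e1]
    unfold avg
    rw [abs_mul, abs_of_pos (by positivity : 0 < 1 / T)]
    have hRT : RR γ w T + RR γ w 0 ≤ 2 * K + 1 + Real.log T := by
      have h5 := hK T
      have h6 := hK 0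
      rw [abs_of_pos hT0] at h5
      simp only [abs_zero, add_zero, Real.log_one, mul_zero] at h6
      have h7 : Real.log (1 + T) ≤ 1 + Real.log T := by
        have h8 : Real.log (1 + T) ≤ Real.log (2 * T) := Real.log_le_log (by positivity) (by linarith)
        rw [Real.log_mul (by norm_num) hT0.ne'] at h8
        have h9 : Real.log 2 ≤ 1 := by
          have := Real.log_two_lt_d9
          linarith
        linarith
      have h10 : 0 ≤ Real.log T := hL0.le
      linarith
    have hRR0 : 0 ≤ RR γ w T + RR γ w 0 := add_nonneg (I.ord.RR_nonneg T) (I.ord.RR_nonneg 0)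
    have hSc : 0 ≤ ∑ j ∈ J, |c j| := Finset.sum_nonneg fun j _ => abs_nonneg _
    calc 1 / T * |∫ t in (0 : ℝ)..T, trig J c lam t * SS γ w ψ (Real.log T) t|
        ≤ 1 / T * (2 * π * C * (RR γ w T + RR γ w 0) * ∑ j ∈ J, |c j|) :=
          mul_le_mul_of_nonneg_left h4 (by positivity)
      _ ≤ 1 / T * (2 * π * C * (2 * K + 1 + Real.log T) * T ^ (1 - ε)) := by
          apply mul_le_mul_of_nonneg_left _ (by positivity)
          apply mul_le_mul _ h3 hSc
          · exact mul_nonneg (by positivity) (by linarith)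
          · exact mul_le_mul_of_nonneg_left hRT (by positivity)
      _ = _ := by
          have : T ^ (1 - ε) = T * T ^ (-ε) := by
            rw [show 1 - ε = 1 + -ε by ring, Real.rpow_add hT0, Real.rpow_one]
          rw [this]
          field_simp
  have hlim : Tendsto (fun T : ℝ => 2 * π * C * (2 * K + 1 + Real.log T) * T ^ (-ε)) atTop (𝓝 0) := by
    have h1 : Tendsto (fun T : ℝ => T ^ (-ε)) atTop (𝓝 0) := tendsto_rpow_neg_atTop hε
    have h2 : Tendsto (fun T : ℝ => Real.log T * T ^ (-ε)) atTop (𝓝 0) := by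
      have := (isLittleO_log_rpow_atTop hε).tendsto_div_nhds_zero
      apply this.congr'
      filter_upwards [eventually_gt_atTop 0] with T hT
      rw [Real.rpow_neg hT.le, div_eq_mul_inv]
    have h3 := (h1.const_mul (2 * π * C * (2 * K + 1))).add (h2.const_mul (2 * π * C))
    simp only [mul_zero, add_zero] at h3
    apply h3.congr
    intro T
    ring
  exact squeeze_zero_norm' hb hlim

theorem tendsto_low (I : Inputs γ w F CR) {s : ℝ} {φ : ℝ → ℝ} (hφ : TestFn s φ) (hs : 0 < s) (hs1 : s < 1)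
    {a : ℝ → ℝ → ℝ} (hac : ∀ᶠ T in atTop, Continuous (a T)) {B : ℝ}
    (haB : ∀ᶠ T in atTop, avg T (fun t => a T t ^ 2) ≤ B) :
    Tendsto (fun T => avg T (fun t => a T t * SS γ w φ (Real.log T) t)
      - (cosT φ 0 * avg T (a T) - avg T (fun t => a T t * WW φ (Real.log T) t))) atTop (𝓝 0) := by
  obtain ⟨b, hb, hbs⟩ := Inputs.exists_a hs hs1
  obtain ⟨A, hP⟩ := I.poisson b hb
  obtain ⟨δ, hδc, hδ, hδ0⟩ := hP.exists_delta hφ hs hbs
  have hlog := Real.tendsto_log_atTop
  have hkey : ∀ᶠ T in atTop, |avg T (fun t => a T t * SS γ w φ (Real.log T) t)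
      - (cosT φ 0 * avg T (a T) - avg T (fun t => a T t * WW φ (Real.log T) t))|
      ≤ Real.sqrt (|B| * avg T (fun t => δ T t ^ 2)) := by
    filter_upwards [hac, haB, hδc, hδ, eventually_gt_atTop (0 : ℝ), hlog.eventually_ge_atTop 1] with
      T h1 h2 h3 h4 hT0 hL1
    have hW : Continuous (WW φ (Real.log T)) := continuous_WW hφ (by linarith)
    have e1 : avg T (fun t => a T t * SS γ w φ (Real.log T) t)
        = avg T (fun t => (cosT φ 0 * a T t + (-1) * (a T t * WW φ (Real.log T) t)) + a T t * δ T t) := by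
      apply avg_congr hT0.le
      intro t ht
      rw [h4 t ht]
      ring
    have e2 : avg T (fun t => a T t * SS γ w φ (Real.log T) t)
        - (cosT φ 0 * avg T (a T) - avg T (fun t => a T t * WW φ (Real.log T) t))
        = avg T (fun t => a T t * δ T t) := by
      rw [e1, avg_add (by fun_prop) (by fun_prop), avg_add (by fun_prop) (by fun_prop), avg_const_mul, avg_const_mul]
      ring
    rw [e2]
    apply Real.abs_le_sqrt
    refine (avg_mul_sq_le hT0 h1 h3).trans ?_
    apply mul_le_mul_of_nonneg_right (h2.trans (le_abs_self B))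
    exact avg_nonneg hT0 fun t => sq_nonneg _
  have hlim : Tendsto (fun T => Real.sqrt (|B| * avg T (fun t => δ T t ^ 2))) atTop (𝓝 0) := by
    have := (hδ0.const_mul |B|)
    rw [mul_zero] at this
    have h2 := (Real.continuous_sqrt.tendsto 0).comp this
    rw [Real.sqrt_zero] at h2
    exact h2
  exact squeeze_zero_norm' hkey hlim

/-- **Block H.** -/
theorem blockH (I : Inputs γ w F CR) {ψ : ℝ → ℝ} (hψ : Nice ψ) {s0 s1 : ℝ} (h0 : 0 < s0) (h01 : s0 < s1)
    (hs1 : s1 < 1) :
    ∃ ψl : ℝ → ℝ, TestFn s1 ψl ∧ (∀ ξ, |ξ| ≤ s0 → cosT ψl ξ = cosT ψ ξ) ∧ (∀ ξ, |cosT ψl ξ| ≤ |cosT ψ ξ|) ∧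
      ∀ (a : ℝ → ℝ → ℝ) (ε B : ℝ), 0 < ε → ShortPoly s0 ε a →
        (∀ᶠ T in atTop, avg T (fun t => a T t ^ 2) ≤ B) →
        Tendsto (fun T => avg T (fun t => a T t * SS γ w ψ (Real.log T) t)
          - (cosT ψ 0 * avg T (a T) - avg T (fun t => a T t * WW ψl (Real.log T) t))) atTop (𝓝 0) := by
  obtain ⟨ψl, hT, hlow, habs, hc, he, hz, C, hC0, hC⟩ := exists_split hψ h0 h01
  refine ⟨ψl, hT, hlow, habs, fun a ε B hε ha haB => ?_⟩
  have hac : ∀ᶠ T in atTop, Continuous (a T) := by
    filter_upwards [ha] with T hTT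
    obtain ⟨J, c, lam, h1, -, -⟩ := hTT
    have : a T = trig J c lam := by ext t; exact h1 t
    rw [this]
    exact continuous_trig J c lam
  have h1 := tendsto_low I hT (h0.trans h01) hs1 hac haB
  have h2 := tendsto_high I hc he hC0 hC hz hε ha
  have h3 := h1.add h2
  rw [add_zero] at h3
  apply h3.congr'
  filter_upwards [hac, Real.tendsto_log_atTop.eventually_ge_atTop (2 * π)] with T hcT hL
  obtain ⟨C', hC0', hC'⟩ := hT.decay
  have hS1 : Continuous (SS γ w ψl (Real.log T)) := continuous_SS_of_decay I.ord hT.cont hC0' hC' hL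
  have hS2 : Continuous (SS γ w (fun u => ψ u - ψl u) (Real.log T)) := continuous_SS_of_decay I.ord hc hC0 hC hL
  have e1 : ∀ t, SS γ w ψ (Real.log T) t = SS γ w ψl (Real.log T) t + SS γ w (fun u => ψ u - ψl u) (Real.log T) t := by
    intro t
    unfold SS
    have g1 := (I.ord.summable_phi hC0' hC' hL t).of_abs
    have g2 := (I.ord.summable_phi hC0 hC hL t).of_abs
    rw [← g1.tsum_add g2]
    congr 1
    ext i
    ring
  have e2 : avg T (fun t => a T t * SS γ w ψ (Real.log T) t)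
      = avg T (fun t => a T t * SS γ w ψl (Real.log T) t)
        + avg T (fun t => a T t * SS γ w (fun u => ψ u - ψl u) (Real.log T) t) := by
    rw [← avg_add (by fun_prop) (by fun_prop)]
    congr 1
    ext t
    rw [e1 t]
    ring
  have e3 : cosT ψl 0 = cosT ψ 0 := hlow 0 (by rw [abs_zero]; exact h0.le)
  rw [e2, e3]
  ring

end Pool.Agent.H26.GH
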