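import Mathlib
import Pool.Agent.H26.GH.D
import Pool.Agent.H14.GP.Defs

/-!
# Block H of MP_103a5c_GP, part E: the weighted mean `EE`, and the explicit formula for it
-/

open MeasureTheory Set Filter Topology
open scoped Real Interval ContDiff

namespace Pool.Agent.H26.GH

open Pool.Agent.H6 Pool.Agent.H14.GP

section means

variable {v : ℝ → ℝ}

theorem wcont (hv : Wgt v) : Continuous v := hv.smooth.continuous

theorem wcs (hv : Wgt v) : HasCompactSupport v := by
  obtain ⟨a, b, -, -, h⟩ := hv.supp
  exact HasCompactSupport.intro isCompact_Icc h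

theorem wscs (hv : Wgt v) {T : ℝ} (hT : 0 < T) : HasCompactSupport (fun t => v (t / T)) := by
  obtain ⟨a, b, -, -, h⟩ := hv.supp
  apply HasCompactSupport.intro (K := Icc (a * T) (b * T)) isCompact_Icc
  intro x hx
  apply h
  intro hx'
  apply hx
  rw [mem_Icc, le_div_iff₀ hT, div_le_iff₀ hT] at hx'
  exact hx'

theorem wint (hv : Wgt v) {T : ℝ} (hT : 0 < T) {f : ℝ → ℝ} (hf : Continuous f) :
    Integrable (fun t => v (t / T) * f t) := by
  have hc : Continuous (fun t => v (t / T) * f t) := by
    have := wcont hv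
    fun_prop
  exact hc.integrable_of_hasCompactSupport ((wscs hv hT).mul_right)

theorem EE_add (hv : Wgt v) {T : ℝ} (hT : 0 < T) {f g : ℝ → ℝ} (hf : Continuous f) (hg : Continuous g) :
    EE v T (fun t => f t + g t) = EE v T f + EE v T g := by
  unfold EE
  rw [← mul_add, ← integral_add (wint hv hT hf) (wint hv hT hg)]
  congr 2
  ext t
  ring

theorem EE_const_mul (v : ℝ → ℝ) (T c : ℝ) (f : ℝ → ℝ) : EE v T (fun t => c * f t) = c * EE v T f := by
  unfold EE
  have : (fun t => v (t / T) * (c * f t)) = fun t => c * (v (t / T) * f t) := by ext t; ring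
  rw [this, integral_const_mul]
  ring

theorem EE_mono (hv : Wgt v) {T : ℝ} (hT : 0 < T) {f g : ℝ → ℝ} (hf : Continuous f) (hg : Continuous g)
    (h : ∀ t, v (t / T) ≠ 0 → f t ≤ g t) : EE v T f ≤ EE v T g := by
  unfold EE
  apply mul_le_mul_of_nonneg_left _ (by positivity)
  apply integral_mono (wint hv hT hf) (wint hv hT hg)
  intro t
  simp only
  by_cases h0 : v (t / T) = 0
  · simp [h0]
  · exact mul_le_mul_of_nonneg_left (h t h0) (hv.nonneg _)

theorem EE_congr {T : ℝ} {f g : ℝ → ℝ} (h : ∀ t, v (t / T) ≠ 0 → f t = g t) : EE v T f = EE v T g := by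
  unfold EE
  congr 2
  ext t
  by_cases h0 : v (t / T) = 0
  · simp [h0]
  · rw [h t h0]

theorem EE_nonneg' (hv : Wgt v) {T : ℝ} (hT : 0 < T) {f : ℝ → ℝ} (h : ∀ t, 0 ≤ f t) : 0 ≤ EE v T f := by
  unfold EE
  apply mul_nonneg (by positivity)
  exact integral_nonneg fun t => mul_nonneg (hv.nonneg _) (h t)

theorem abs_EE_le (hv : Wgt v) {T : ℝ} (hT : 0 < T) {f : ℝ → ℝ} (hf : Continuous f) :
    |EE v T f| ≤ EE v T (fun t => |f t|) := by
  rw [abs_le]
  constructor
  · have h1 := EE_mono hv hT (f := fun t => (-1) * |f t|) (g := f) (by fun_prop) hf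
      (fun t _ => by have := neg_abs_le (f t); linarith)
    rw [EE_const_mul] at h1
    linarith
  · exact EE_mono hv hT hf (by fun_prop) (fun t _ => le_abs_self _)

/-- Cauchy-Schwarz -/
theorem EE_mul_sq_le (hv : Wgt v) {T : ℝ} (hT : 0 < T) {f g : ℝ → ℝ} (hf : Continuous f) (hg : Continuous g) :
    (EE v T (fun t => f t * g t)) ^ 2 ≤ EE v T (fun t => f t ^ 2) * EE v T (fun t => g t ^ 2) := by
  have key : ∀ x : ℝ, 0 ≤ EE v T (fun t => f t ^ 2) * (x * x) + (2 * EE v T (fun t => f t * g t)) * x
      + EE v T (fun t => g t ^ 2) := by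
    intro x
    have h1 : EE v T (fun t => (x * f t + g t) ^ 2) = EE v T (fun t => f t ^ 2) * (x * x)
        + (2 * EE v T (fun t => f t * g t)) * x + EE v T (fun t => g t ^ 2) := by
      have e : (fun t => (x * f t + g t) ^ 2) = fun t => (x * x) * (f t ^ 2) + ((2 * x) * (f t * g t) + g t ^ 2) := by
        ext t; ring
      rw [e, EE_add hv hT (by fun_prop) (by fun_prop), EE_add hv hT (by fun_prop) (by fun_prop), EE_const_mul,
        EE_const_mul]
      ring
    rw [← h1]
    exact EE_nonneg' hv hT fun t => sq_nonneg _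
  have hd := discrim_le_zero key
  unfold discrim at hd
  nlinarith

end means

variable {ι : Type*} {γ w : ι → ℝ} {F : ℝ → Finset ι} {CR : ℝ}

/-- high frequencies, weighted mean -/
theorem tendsto_high_w (O : Ordinates ι γ w F CR) {A : ℝ → ℝ} (hP : PoissonInput γ w 1 A) {v : ℝ → ℝ} (hv : Wgt v)
    {ψ : ℝ → ℝ} (hc : Continuous ψ) (he : ∀ u, ψ (-u) = ψ u)
    {C : ℝ} (hC : 0 ≤ C) (hd : ∀ u, |ψ u| ≤ C / (1 + u ^ 2) ^ 2) {s0 : ℝ}
    (h0 : ∀ ξ, |ξ| ≤ s0 → cosT ψ ξ = 0) {ε : ℝ} (hε : 0 < ε) {a : ℝ → ℝ → ℝ} (ha : ShortPoly s0 ε a) :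
    Tendsto (fun T => EE v T (fun t => a T t * SS γ w ψ (Real.log T) t)) atTop (𝓝 0) := by
  obtain ⟨K, hK0, hK⟩ := RR_log hP
  obtain ⟨α, β, hα, hαβ, hsupp⟩ := hv.supp
  obtain ⟨D, hD⟩ := ((wcs hv).deriv).exists_bound_of_continuous (hv.smooth.continuous_deriv (by simp))
  have hD0 : 0 ≤ D := (norm_nonneg _).trans (hD 0)
  have hlog := Real.tendsto_log_atTop
  set b := β + 1 with hb
  have hb0 : 0 < b := by linarith
  have hvb : v b = 0 := hsupp b (by rw [mem_Icc]; intro h; linarith [h.2])
  have hv0 : v 0 = 0 := hsupp 0 (by rw [mem_Icc]; intro h; linarith [h.1])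
  have hbd : ∀ᶠ T in atTop, |EE v T (fun t => a T t * SS γ w ψ (Real.log T) t)|
      ≤ (b * D * (2 * π * C)) * (2 * K + Real.log (1 + b) + Real.log T) * T ^ (-ε) := by
    filter_upwards [ha, eventually_ge_atTop (1 : ℝ), hlog.eventually_ge_atTop (2 * π)] with T hT hT1 hTL
    obtain ⟨J, c, lam, h1, h2, h3⟩ := hT
    have hT0 : 0 < T := by linarith
    have hL0 : 0 < Real.log T := lt_of_lt_of_le (by positivity) hTL
    have hz : ∀ j ∈ J, cosT ψ (lam j / Real.log T) = 0 := fun j hj => h0 _ (by
      rw [abs_div, abs_of_pos hL0, div_le_iff₀ hL0]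
      exact h2 j hj)
    set f : ℝ → ℝ := fun t => trig J c lam t * SS γ w ψ (Real.log T) t with hf
    have hSc : Continuous (SS γ w ψ (Real.log T)) := continuous_SS_of_decay O hc hC hd hTL
    have hfc : Continuous f := (continuous_trig J c lam).mul hSc
    have e1 : (fun t => a T t * SS γ w ψ (Real.log T) t) = f := by
      ext t; rw [h1 t]
    rw [e1]
    set V : ℝ → ℝ := fun x => ∫ t in (0 : ℝ)..x, f t with hV
    have hS0 : 0 ≤ ∑ j ∈ J, |c j| := Finset.sum_nonneg fun j _ => abs_nonneg _
    set B := 2 * π * C * (2 * K + Real.log (1 + b) + Real.log T) * T ^ (1 - ε) with hB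
    have hlogb : 0 ≤ Real.log (1 + b) := Real.log_nonneg (by linarith)
    have hVb : ∀ x, 0 ≤ x → x ≤ b * T → |V x| ≤ B := by
      intro x hx0 hx
      have h4 := high_part O hc he hC hd hTL hx0 J c lam hz
      refine h4.trans ?_
      have h5 := hK x
      have h6 := hK 0
      rw [abs_of_nonneg hx0] at h5
      simp only [abs_zero, add_zero, Real.log_one, mul_zero] at h6
      have h7 : Real.log (1 + x) ≤ Real.log (1 + b) + Real.log T := by
        rw [← Real.log_mul (by positivity) hT0.ne']
        apply Real.log_le_log (by linarith)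
        nlinarith
      have hRR0 : 0 ≤ RR γ w x + RR γ w 0 := add_nonneg (O.RR_nonneg x) (O.RR_nonneg 0)
      have hR : RR γ w x + RR γ w 0 ≤ 2 * K + Real.log (1 + b) + Real.log T := by linarith
      apply mul_le_mul _ h3 hS0
      · exact mul_nonneg (by positivity) (by linarith)
      · exact mul_le_mul_of_nonneg_left hR (by positivity)
    -- restrict the integral
    have hcs : ∀ t, t ∉ Ioc 0 (b * T) → v (t / T) * f t = 0 := by
      intro t ht
      have : v (t / T) = 0 := by
        apply hsupp
        rw [mem_Icc, le_div_iff₀ hT0, div_le_iff₀ hT0]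
        rintro ⟨g1, g2⟩
        apply ht
        rw [mem_Ioc]
        constructor
        · exact lt_of_lt_of_le (by positivity) g1
        · refine g2.trans ?_
          apply mul_le_mul_of_nonneg_right _ hT0.le
          linarith
      rw [this, zero_mul]
    have hI : ∫ t, v (t / T) * f t = ∫ t in (0 : ℝ)..(b * T), v (t / T) * f t := by
      rw [intervalIntegral.integral_of_le (by positivity)]
      symm
      apply setIntegral_eq_integral_of_forall_compl_eq_zero
      exact hcs
    have hdv : ∀ t, HasDerivAt (fun t => v (t / T)) (deriv v (t / T) * (1 / T)) t := by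
      intro t
      have g1 : HasDerivAt v (deriv v (t / T)) (t / T) :=
        ((hv.smooth.differentiable (by simp)) (t / T)).hasDerivAt
      have g2 : HasDerivAt (fun t : ℝ => t / T) (1 / T) t := by
        simpa using (hasDerivAt_id t).div_const T
      exact g1.comp t g2
    have hdV : ∀ t, HasDerivAt V (f t) t := fun t => by
      exact hfc.integral_hasStrictDerivAt 0 t |>.hasDerivAt
    have hVc : Continuous V := continuous_iff_continuousAt.mpr fun t => (hdV t).continuousAt
    have hdvc : Continuous (fun t => deriv v (t / T) * (1 / T)) := by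
      have := hv.smooth.continuous_deriv (by simp)
      fun_prop
    have hparts := intervalIntegral.integral_mul_deriv_eq_deriv_mul (a := 0) (b := b * T)
      (u := fun t => v (t / T)) (v := V) (u' := fun t => deriv v (t / T) * (1 / T)) (v' := f)
      (fun t _ => hdv t) (fun t _ => hdV t) (hdvc.intervalIntegrable _ _) (hfc.intervalIntegrable _ _)
    have hVz : V 0 = 0 := by simp [hV]
    have hvbT : v (b * T / T) = 0 := by rw [mul_div_assoc, div_self hT0.ne', mul_one, hvb]
    rw [hVz, hvbT] at hparts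
    simp only [zero_mul, mul_zero, sub_zero, zero_sub] at hparts
    unfold EE
    rw [hI, hparts, mul_neg, abs_neg, abs_mul, abs_of_pos (by positivity : 0 < 1 / T)]
    have hfin : |∫ t in (0 : ℝ)..(b * T), deriv v (t / T) * (1 / T) * V t| ≤ (D * (1 / T) * B) * |b * T - 0| := by
      rw [← Real.norm_eq_abs]
      apply intervalIntegral.norm_integral_le_of_norm_le_const
      intro t ht
      rw [uIoc_of_le (by positivity), mem_Ioc] at ht
      rw [Real.norm_eq_abs, abs_mul, abs_mul, abs_of_pos (by positivity : 0 < 1 / T)]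
      have g1 := hD (t / T)
      rw [Real.norm_eq_abs] at g1
      apply mul_le_mul _ (hVb t ht.1.le ht.2) (abs_nonneg _) (by positivity)
      exact mul_le_mul_of_nonneg_right g1 (by positivity)
    rw [sub_zero, abs_of_pos (by positivity : 0 < b * T)] at hfin
    calc 1 / T * |∫ t in (0 : ℝ)..(b * T), deriv v (t / T) * (1 / T) * V t|
        ≤ 1 / T * ((D * (1 / T) * B) * (b * T)) := mul_le_mul_of_nonneg_left hfin (by positivity)
      _ = _ := by
          have : T ^ (1 - ε) = T * T ^ (-ε) := by
            rw [show 1 - ε = 1 + -ε by ring, Real.rpow_add hT0, Real.rpow_one]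
          rw [hB, this]
          field_simp
  have hlim : Tendsto (fun T : ℝ => (b * D * (2 * π * C)) * (2 * K + Real.log (1 + b) + Real.log T) * T ^ (-ε))
      atTop (𝓝 0) := by
    have h1 : Tendsto (fun T : ℝ => T ^ (-ε)) atTop (𝓝 0) := tendsto_rpow_neg_atTop hε
    have h2 : Tendsto (fun T : ℝ => Real.log T * T ^ (-ε)) atTop (𝓝 0) := by
      have := (isLittleO_log_rpow_atTop hε).tendsto_div_nhds_zero
      apply this.congr'
      filter_upwards [eventually_gt_atTop 0] with T hT
      rw [Real.rpow_neg hT.le, div_eq_mul_inv]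
    have h3 := (h1.const_mul ((b * D * (2 * π * C)) * (2 * K + Real.log (1 + b)))).add
      (h2.const_mul (b * D * (2 * π * C)))
    simp only [mul_zero, add_zero] at h3
    apply h3.congr
    intro T
    ring
  exact squeeze_zero_norm' hbd hlim

end Pool.Agent.H26.GH
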