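import Mathlib
import Pool.Agent.H26.GH.E

/-!
# Block H of MP_103a5c_GP, part F: low frequencies, weighted mean; the explicit formula against short polynomials
-/

open MeasureTheory Set Filter Topology
open scoped Real Interval ContDiff

namespace Pool.Agent.H26.GH

open Pool.Agent.H6 Pool.Agent.H14.GP

variable {ι : Type*} [Countable ι] {γ w : ι → ℝ} {F : ℝ → Finset ι} {CR : ℝ}

/-- the explicit formula is uniform on `[αT, βT]` -/
theorem exists_eta (I : Inputs γ w F CR) {s : ℝ} {φ : ℝ → ℝ} (hφ : TestFn s φ) (hs : 0 < s) (hs1 : s < 1)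
    {α β : ℝ} (hα : 0 < α) (hβ : α < β) :
    ∃ η : ℝ → ℝ, Tendsto η atTop (𝓝 0) ∧ ∀ᶠ T in atTop, ∀ t ∈ Icc (α * T) (β * T),
      |SS γ w φ (Real.log T) t - (cosT φ 0 - WW φ (Real.log T) t)| ≤ η T := by
  have hβ0 : 0 < β := hα.trans hβ
  obtain ⟨b, hb, hbs⟩ := Inputs.exists_a hs hs1
  obtain ⟨A, hP⟩ := I.poisson b hb
  obtain ⟨C', hC0', hC'⟩ := hP.bound_A
  obtain ⟨C1, hC1⟩ := hP.arch1
  obtain ⟨C2, hC2⟩ := hP.arch2
  have hAb : ∀ t, |A t| ≤ C' * (1 + |t|) ^ (1 / 2 : ℝ) := fun t =>
    (hC' t).trans (mul_le_mul_of_nonneg_left (PoissonInput.rpow_quarter_le_half t) hC0')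
  obtain ⟨K, hK0, hK⟩ := hφ.abs_conv_sub_le hs hP.a_pos hP.cont hAb hC2
  have hC10 : 0 ≤ C1 := (abs_nonneg _).trans (hC1 0)
  set E0 : ℝ := |cosT φ 0| * (2 * C1 + |Real.log α| + Real.log (1 + β)) with hE0
  have hlog := Real.tendsto_log_atTop
  have hbs' : b * s < 1 / 2 := by linarith
  refine ⟨fun T => K * α ^ (-(1 / 2) : ℝ) * T ^ (-(1 / 2 - b * s)) + E0 / Real.log T, ?_, ?_⟩
  · have h1 : Tendsto (fun T : ℝ => T ^ (-(1 / 2 - b * s))) atTop (𝓝 0) :=
      tendsto_rpow_neg_atTop (by linarith)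
    have h2 : Tendsto (fun T : ℝ => E0 / Real.log T) atTop (𝓝 0) := hlog.const_div_atTop E0
    have h3 := (h1.const_mul (K * α ^ (-(1 / 2) : ℝ))).add h2
    simpa using h3
  · filter_upwards [eventually_ge_atTop (1 : ℝ), hlog.eventually_ge_atTop 1] with T hT1 hL1 t ht
    have hT0 : 0 < T := by linarith
    have hL0 : 0 < Real.log T := by linarith
    have ht0 : 0 < t := lt_of_lt_of_le (by positivity) ht.1
    rw [hP.SS_eq hφ hs hL1]
    have h1 := hK (Real.log T) hL1 t
    have h2 : K * Real.exp (b * Real.log T * s) / (1 + |t|) ^ (1 / 2 : ℝ)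
        ≤ K * α ^ (-(1 / 2) : ℝ) * T ^ (-(1 / 2 - b * s)) := by
      have e1 : Real.exp (b * Real.log T * s) = T ^ (b * s) := by
        rw [Real.rpow_def_of_pos hT0]; congr 1; ring
      have e2 : α ^ (1 / 2 : ℝ) * T ^ (1 / 2 : ℝ) ≤ (1 + |t|) ^ (1 / 2 : ℝ) := by
        rw [← Real.mul_rpow hα.le hT0.le]
        apply Real.rpow_le_rpow (by positivity) _ (by norm_num)
        rw [abs_of_pos ht0]
        linarith [ht.1]
      rw [e1]
      calc K * T ^ (b * s) / (1 + |t|) ^ (1 / 2 : ℝ) ≤ K * T ^ (b * s) / (α ^ (1 / 2 : ℝ) * T ^ (1 / 2 : ℝ)) :=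
            div_le_div_of_nonneg_left (by positivity) (by positivity) e2
        _ = _ := by
            rw [Real.rpow_neg hα.le, show -(1 / 2 - b * s) = b * s - 1 / 2 by ring, Real.rpow_sub hT0]
            field_simp
    have h3 := hC1 t
    have h4 : |Real.log (1 + |t|) - Real.log T| ≤ |Real.log α| + Real.log (1 + β) := by
      rw [abs_of_pos ht0]
      have g1 : Real.log (1 + t) ≤ Real.log (1 + β) + Real.log T := by
        rw [← Real.log_mul (by positivity) hT0.ne']
        apply Real.log_le_log (by linarith)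
        nlinarith [ht.2]
      have g2 : Real.log α + Real.log T ≤ Real.log (1 + t) := by
        rw [← Real.log_mul hα.ne' hT0.ne']
        apply Real.log_le_log (by positivity)
        linarith [ht.1]
      have g3 : 0 ≤ Real.log (1 + β) := Real.log_nonneg (by linarith)
      have g4 := neg_abs_le (Real.log α)
      have g5 := abs_nonneg (Real.log α)
      rw [abs_le]
      constructor <;> linarith
    have h5 : |(2 / Real.log T) * A t - 1| ≤ (2 * C1 + |Real.log α| + Real.log (1 + β)) / Real.log T := by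
      have e : (2 / Real.log T) * A t - 1
          = (2 * (A t - 1 / 2 * Real.log (1 + |t|)) + (Real.log (1 + |t|) - Real.log T)) / Real.log T := by
        field_simp
        ring
      rw [e, abs_div, abs_of_pos hL0]
      apply div_le_div_of_nonneg_right _ hL0.le
      refine (abs_add_le _ _).trans ?_
      rw [abs_mul, abs_of_pos (by norm_num : (0 : ℝ) < 2)]
      linarith
    have e6 : (∫ u, TestFn.q φ b (Real.log T) u * A (t - u)) - WW φ (Real.log T) t
        - (cosT φ 0 - WW φ (Real.log T) t)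
        = ((∫ u, TestFn.q φ b (Real.log T) u * A (t - u)) - 2 / Real.log T * cosT φ 0 * A t)
          + cosT φ 0 * (2 / Real.log T * A t - 1) := by ring
    rw [e6]
    refine (abs_add_le _ _).trans ?_
    apply add_le_add (h1.trans h2)
    rw [abs_mul, hE0, mul_div_assoc]
    exact mul_le_mul_of_nonneg_left h5 (abs_nonneg _)

/-- low frequencies, weighted mean -/
theorem tendsto_low_w (I : Inputs γ w F CR) {v : ℝ → ℝ} (hv : Wgt v) {s : ℝ} {φ : ℝ → ℝ} (hφ : TestFn s φ)
    (hs : 0 < s) (hs1 : s < 1) {a : ℝ → ℝ → ℝ} (hac : ∀ᶠ T in atTop, Continuous (a T)) {B : ℝ}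
    (haB : ∀ᶠ T in atTop, EE v T (fun t => |a T t|) ≤ B) :
    Tendsto (fun T => EE v T (fun t => a T t * SS γ w φ (Real.log T) t)
      - (cosT φ 0 * EE v T (a T) - EE v T (fun t => a T t * WW φ (Real.log T) t))) atTop (𝓝 0) := by
  obtain ⟨α, β, hα, hαβ, hsupp⟩ := hv.supp
  obtain ⟨η, hη0, hη⟩ := exists_eta I hφ hs hs1 hα hαβ
  have hlog := Real.tendsto_log_atTop
  have hkey : ∀ᶠ T in atTop, |EE v T (fun t => a T t * SS γ w φ (Real.log T) t)
      - (cosT φ 0 * EE v T (a T) - EE v T (fun t => a T t * WW φ (Real.log T) t))|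
      ≤ |η T| * |B| := by
    filter_upwards [hac, haB, hη, eventually_gt_atTop (0 : ℝ), hlog.eventually_ge_atTop 1] with
      T h1 h2 h3 hT0 hL1
    have hW : Continuous (WW φ (Real.log T)) := continuous_WW hφ (by linarith)
    have hS : Continuous (SS γ w φ (Real.log T)) := I.continuous_SS hφ hs hL1
    set δ : ℝ → ℝ := fun t => SS γ w φ (Real.log T) t - (cosT φ 0 - WW φ (Real.log T) t) with hδ
    have hδc : Continuous δ := by
      rw [hδ]; fun_prop
    have e1 : (fun t => a T t * SS γ w φ (Real.log T) t)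
        = fun t => (cosT φ 0 * a T t + (-1) * (a T t * WW φ (Real.log T) t)) + a T t * δ t := by
      ext t
      rw [hδ]
      ring
    have e2 : EE v T (fun t => a T t * SS γ w φ (Real.log T) t)
        - (cosT φ 0 * EE v T (a T) - EE v T (fun t => a T t * WW φ (Real.log T) t))
        = EE v T (fun t => a T t * δ t) := by
      rw [e1, EE_add hv hT0 (by fun_prop) (by fun_prop), EE_add hv hT0 (by fun_prop) (by fun_prop), EE_const_mul,
        EE_const_mul]
      ring
    rw [e2]
    refine (abs_EE_le hv hT0 (by fun_prop)).trans ?_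
    calc EE v T (fun t => |a T t * δ t|) ≤ EE v T (fun t => |η T| * |a T t|) := by
          apply EE_mono hv hT0 (by fun_prop) (by fun_prop)
          intro t ht
          have hmem : t ∈ Icc (α * T) (β * T) := by
            by_contra hcon
            apply ht
            apply hsupp
            intro hx
            rw [mem_Icc, le_div_iff₀ hT0, div_le_iff₀ hT0] at hx
            exact hcon hx
          rw [abs_mul, mul_comm]
          apply mul_le_mul_of_nonneg_right _ (abs_nonneg _)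
          exact (h3 t hmem).trans (le_abs_self _)
      _ = |η T| * EE v T (fun t => |a T t|) := EE_const_mul v T _ _
      _ ≤ |η T| * |B| := mul_le_mul_of_nonneg_left (h2.trans (le_abs_self B)) (abs_nonneg _)
  have hlim : Tendsto (fun T => |η T| * |B|) atTop (𝓝 0) := by
    have := (hη0.abs).mul_const |B|
    simpa using this
  exact squeeze_zero_norm' hkey hlim

/-- **Block H, weighted mean.** -/
theorem blockHv (I : Inputs γ w F CR) {v : ℝ → ℝ} (hv : Wgt v) {ψ : ℝ → ℝ} (hψ : Nice ψ) {s0 s1 : ℝ} (h0 : 0 < s0)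
    (h01 : s0 < s1) (hs1 : s1 < 1) :
    ∃ ψl : ℝ → ℝ, TestFn s1 ψl ∧ (∀ ξ, |ξ| ≤ s0 → cosT ψl ξ = cosT ψ ξ) ∧ (∀ ξ, |cosT ψl ξ| ≤ |cosT ψ ξ|) ∧
      ∀ (a : ℝ → ℝ → ℝ) (ε B : ℝ), 0 < ε → ShortPoly s0 ε a →
        (∀ᶠ T in atTop, EE v T (fun t => |a T t|) ≤ B) →
        Tendsto (fun T => EE v T (fun t => a T t * SS γ w ψ (Real.log T) t)
          - (cosT ψ 0 * EE v T (a T) - EE v T (fun t => a T t * WW ψl (Real.log T) t))) atTop (𝓝 0) := by
  obtain ⟨ψl, hT, hlow, habs, hc, he, hz, C, hC0, hC⟩ := exists_split hψ h0 h01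
  refine ⟨ψl, hT, hlow, habs, fun a ε B hε ha haB => ?_⟩
  have hac : ∀ᶠ T in atTop, Continuous (a T) := by
    filter_upwards [ha] with T hTT
    obtain ⟨J, c, lam, h1, -, -⟩ := hTT
    have : a T = trig J c lam := by ext t; exact h1 t
    rw [this]
    exact continuous_trig J c lam
  obtain ⟨A, hP⟩ := I.poisson 1 (by norm_num)
  have h1 := tendsto_low_w I hv hT (h0.trans h01) hs1 hac haB
  have h2 := tendsto_high_w I.ord hP hv hc he hC0 hC hz hε ha
  have h3 := h1.add h2
  rw [add_zero] at h3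
  apply h3.congr'
  filter_upwards [hac, Real.tendsto_log_atTop.eventually_ge_atTop (2 * π), eventually_gt_atTop (0 : ℝ)] with
    T hcT hL hT0
  obtain ⟨C', hC0', hC'⟩ := hT.decay
  have hS1 : Continuous (SS γ w ψl (Real.log T)) := continuous_SS_of_decay I.ord hT.cont hC0' hC' hL
  have hS2 : Continuous (SS γ w (fun u => ψ u - ψl u) (Real.log T)) := continuous_SS_of_decay I.ord hc hC0 hC hL
  have e1 : ∀ t, SS γ w ψ (Real.log T) t = SS γ w ψl (Real.log T) t + SS γ w (fun u => ψ u - ψl u) (Real.log T) t := by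
    intro t
    unfold SS
    have g1 := (I.ord.summable_phi hC0' hC' hL t).of_abs
    have g2 := (I.ord.summable_phi hC0 hC hL t).of_abs
    rw [← g1.tsum_add g2]
    congr 1
    ext i
    ring
  have e2 : EE v T (fun t => a T t * SS γ w ψ (Real.log T) t)
      = EE v T (fun t => a T t * SS γ w ψl (Real.log T) t)
        + EE v T (fun t => a T t * SS γ w (fun u => ψ u - ψl u) (Real.log T) t) := by
    rw [← EE_add hv hT0 (by fun_prop) (by fun_prop)]
    congr 1
    ext t
    rw [e1 t]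
    ring
  have e3 : cosT ψl 0 = cosT ψ 0 := hlow 0 (by rw [abs_zero]; exact h0.le)
  rw [e2, e3]
  ring

end Pool.Agent.H26.GH
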