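import Mathlib
import Pool.Agent.H26.GH.F

/-!
# Block H of MP_103a5c_GP, part G: the class of exponential polynomials with bounded two-sided spectrum
-/

open MeasureTheory Set Filter Topology
open scoped Real Interval ContDiff

namespace Pool.Agent.H26.GH

open Pool.Agent.H6 Pool.Agent.H14.GP

/-- exponential polynomial with real coefficients, spectrum in `[-Λ', Λ]` and sum of coefficients at most `S` -/
def CP (Λ Λ' S : ℝ) (f : ℝ → ℂ) : Prop :=
  ∃ (κ : Type) (_ : Fintype κ) (c lam : κ → ℝ),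
    (∀ t : ℝ, f t = ∑ k, (c k : ℂ) * Complex.exp (-((lam k * t : ℝ) : ℂ) * Complex.I)) ∧
    (∀ k, -Λ' ≤ lam k ∧ lam k ≤ Λ) ∧ ∑ k, |c k| ≤ S

namespace CP

variable {Λ Λ' S Λ₁ Λ₁' S₁ : ℝ} {f g : ℝ → ℂ}

theorem nonneg (h : CP Λ Λ' S f) : 0 ≤ S := by
  obtain ⟨κ, _, c, lam, -, -, h3⟩ := h
  exact (Finset.sum_nonneg fun k _ => abs_nonneg _).trans h3

theorem mono (h : CP Λ Λ' S f) (h1 : Λ ≤ Λ₁) (h2 : Λ' ≤ Λ₁') (h3 : S ≤ S₁) : CP Λ₁ Λ₁' S₁ f := by
  obtain ⟨κ, i, c, lam, g1, g2, g3⟩ := h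
  exact ⟨κ, i, c, lam, g1, fun k => ⟨by linarith [(g2 k).1], (g2 k).2.trans h1⟩, g3.trans h3⟩

theorem zero (hS : 0 ≤ S) : CP Λ Λ' S (fun _ => 0) :=
  ⟨Fin 0, inferInstance, fun _ => 0, fun _ => 0, fun t => by simp, fun k => k.elim0, by simpa using hS⟩

theorem const (r : ℝ) (h1 : 0 ≤ Λ) (h2 : 0 ≤ Λ') (h3 : |r| ≤ S) : CP Λ Λ' S (fun _ => (r : ℂ)) :=
  ⟨Unit, inferInstance, fun _ => r, fun _ => 0, fun t => by simp, fun k => ⟨by linarith, h1⟩, by simpa using h3⟩

theorem add (hf : CP Λ Λ' S f) (hg : CP Λ Λ' S₁ g) : CP Λ Λ' (S + S₁) (fun t => f t + g t) := by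
  obtain ⟨κ, i, c, lam, a1, a2, a3⟩ := hf
  obtain ⟨κ', i', c', lam', b1, b2, b3⟩ := hg
  refine ⟨κ ⊕ κ', inferInstance, Sum.elim c c', Sum.elim lam lam', fun t => ?_, ?_, ?_⟩
  · beta_reduce
    rw [a1, b1, Fintype.sum_sum_type]
    simp
  · rintro (k | k)
    · exact a2 k
    · exact b2 k
  · rw [Fintype.sum_sum_type]
    simp only [Sum.elim_inl, Sum.elim_inr]
    exact add_le_add a3 b3

theorem mul (hf : CP Λ Λ' S f) (hg : CP Λ₁ Λ₁' S₁ g) : CP (Λ + Λ₁) (Λ' + Λ₁') (S * S₁) (fun t => f t * g t) := by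
  have hS1 := hf.nonneg
  obtain ⟨κ, i, c, lam, a1, a2, a3⟩ := hf
  obtain ⟨κ', i', c', lam', b1, b2, b3⟩ := hg
  refine ⟨κ × κ', inferInstance, fun p => c p.1 * c' p.2, fun p => lam p.1 + lam' p.2, fun t => ?_, ?_, ?_⟩
  · beta_reduce
    rw [a1, b1, Finset.sum_mul_sum, Fintype.sum_prod_type]
    apply Finset.sum_congr rfl
    intro k _
    apply Finset.sum_congr rfl
    intro k' _
    have : Complex.exp (-(((lam k + lam' k') * t : ℝ) : ℂ) * Complex.I)
        = Complex.exp (-((lam k * t : ℝ) : ℂ) * Complex.I) * Complex.exp (-((lam' k' * t : ℝ) : ℂ) * Complex.I) := by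
      rw [← Complex.exp_add]
      congr 1
      push_cast
      ring
    simp only [this]
    push_cast
    ring
  · rintro ⟨k, k'⟩
    have h1 := a2 k
    have h2 := b2 k'
    simp only
    constructor <;> linarith [h1.1, h1.2, h2.1, h2.2]
  · rw [Fintype.sum_prod_type]
    simp only [abs_mul]
    rw [← Finset.sum_mul_sum]
    exact mul_le_mul a3 b3 (Finset.sum_nonneg fun k _ => abs_nonneg _) hS1

theorem smul (r : ℝ) (hf : CP Λ Λ' S f) : CP Λ Λ' (|r| * S) (fun t => (r : ℂ) * f t) := by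
  obtain ⟨κ, i, c, lam, a1, a2, a3⟩ := hf
  refine ⟨κ, i, fun k => r * c k, lam, fun t => ?_, a2, ?_⟩
  · beta_reduce
    rw [a1, Finset.mul_sum]
    apply Finset.sum_congr rfl
    intro k _
    push_cast
    ring
  · simp only [abs_mul]
    rw [← Finset.mul_sum]
    exact mul_le_mul_of_nonneg_left a3 (abs_nonneg _)

theorem cnj (hf : CP Λ Λ' S f) : CP Λ' Λ S (fun t => (starRingEnd ℂ) (f t)) := by
  obtain ⟨κ, i, c, lam, a1, a2, a3⟩ := hf
  refine ⟨κ, i, c, fun k => -lam k, fun t => ?_, fun k => ⟨by linarith [(a2 k).2], by linarith [(a2 k).1]⟩, a3⟩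
  beta_reduce
  rw [a1, map_sum]
  apply Finset.sum_congr rfl
  intro k _
  rw [map_mul, Complex.conj_ofReal, ← Complex.exp_conj]
  congr 2
  rw [map_mul, map_neg, Complex.conj_ofReal, Complex.conj_I]
  push_cast
  ring

theorem pow (hf : CP Λ Λ' S f) (n : ℕ) : CP (n * Λ) (n * Λ') (S ^ n) (fun t => f t ^ n) := by
  induction n with
  | zero =>
    have := const (Λ := 0) (Λ' := 0) (S := 1) 1 le_rfl le_rfl (by simp)
    simpa using this
  | succ n ih =>
    have := ih.mul hf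
    have e : (fun t => f t ^ n * f t) = fun t => f t ^ (n + 1) := by ext t; rw [pow_succ]
    rw [e] at this
    refine this.mono (le_of_eq ?_) (le_of_eq ?_) (le_of_eq ?_)
    · push_cast; ring
    · push_cast; ring
    · rw [pow_succ]

theorem sum {α : Type*} (s : Finset α) {S : α → ℝ} {f : α → ℝ → ℂ} (h : ∀ a ∈ s, CP Λ Λ' (S a) (f a)) :
    CP Λ Λ' (∑ a ∈ s, S a) (fun t => ∑ a ∈ s, f a t) := by
  classical
  induction s using Finset.induction_on with
  | empty => simpa using zero (Λ := Λ) (Λ' := Λ') le_rfl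
  | insert a s ha ih =>
    have h1 := h a (Finset.mem_insert_self a s)
    have h2 := ih (fun b hb => h b (Finset.mem_insert_of_mem hb))
    have := h1.add h2
    simp only [Finset.sum_insert ha]
    exact this

theorem prod {α : Type*} (s : Finset α) {Λ Λ' S : α → ℝ} {f : α → ℝ → ℂ} (h : ∀ a ∈ s, CP (Λ a) (Λ' a) (S a) (f a)) :
    CP (∑ a ∈ s, Λ a) (∑ a ∈ s, Λ' a) (∏ a ∈ s, S a) (fun t => ∏ a ∈ s, f a t) := by
  classical
  induction s using Finset.induction_on with
  | empty =>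
    have := const (Λ := 0) (Λ' := 0) (S := 1) 1 le_rfl le_rfl (by simp)
    simpa using this
  | insert a s ha ih =>
    have h1 := h a (Finset.mem_insert_self a s)
    have h2 := ih (fun b hb => h b (Finset.mem_insert_of_mem hb))
    have := h1.mul h2
    simp only [Finset.sum_insert ha, Finset.prod_insert ha]
    exact this

/-- the square of the real part is a real trigonometric polynomial -/
theorem re_sq (hf : CP Λ Λ S f) : CP (2 * Λ) (2 * Λ) (S ^ 2) (fun t => f t * ((1 / 2 : ℝ) * (f t + (starRingEnd ℂ) (f t))))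
    ∧ ∀ t, (f t * ((1 / 2 : ℝ) * (f t + (starRingEnd ℂ) (f t)))).re = (f t).re ^ 2 := by
  constructor
  · have h1 := (hf.add hf.cnj).smul (1 / 2)
    have h2 := hf.mul h1
    refine h2.mono (by linarith) (by linarith) (le_of_eq ?_)
    rw [abs_of_pos (by norm_num : (0 : ℝ) < 1 / 2)]
    ring
  · intro t
    have h1 : f t + (starRingEnd ℂ) (f t) = ((2 * (f t).re : ℝ) : ℂ) := Complex.add_conj (f t)
    rw [h1, ← Complex.ofReal_mul, Complex.re_mul_ofReal]
    ring

theorem exists_trig (hf : CP Λ Λ S f) : ∃ (J : Finset ℕ) (c lam : ℕ → ℝ), (∀ t, (f t).re = trig J c lam t) ∧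
    (∀ j ∈ J, |lam j| ≤ Λ) ∧ ∑ j ∈ J, |c j| ≤ S := by
  classical
  obtain ⟨κ, i, c, lam, a1, a2, a3⟩ := hf
  set n := Fintype.card κ with hn
  let e : κ ≃ Fin n := Fintype.equivFin κ
  have key : ∀ {M : Type} [AddCommMonoid M] (F : κ → M),
      ∑ j ∈ Finset.range n, (fun j => if h : j < n then F (e.symm ⟨j, h⟩) else 0) j = ∑ k, F k := by
    intro M _ F
    rw [Finset.sum_range]
    rw [← Equiv.sum_comp e.symm F]
    apply Finset.sum_congr rfl
    intro j _
    simp
  refine ⟨Finset.range n, fun j => if h : j < n then c (e.symm ⟨j, h⟩) else 0,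
    fun j => if h : j < n then lam (e.symm ⟨j, h⟩) else 0, fun t => ?_, ?_, ?_⟩
  · rw [a1, Complex.re_sum]
    have h1 : ∀ k, ((c k : ℂ) * Complex.exp (-((lam k * t : ℝ) : ℂ) * Complex.I)).re = c k * Real.cos (lam k * t) := by
      intro k
      rw [Complex.re_ofReal_mul]
      congr 1
      rw [← Complex.ofReal_neg, Complex.exp_ofReal_mul_I_re, Real.cos_neg]
    rw [Finset.sum_congr rfl (fun k _ => h1 k), ← key]
    unfold trig
    apply Finset.sum_congr rfl
    intro j hj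
    rw [Finset.mem_range] at hj
    simp [hj]
  · intro j hj
    rw [Finset.mem_range] at hj
    simp only [hj, dif_pos]
    exact abs_le.mpr (a2 _)
  · refine le_trans (le_of_eq ?_) a3
    rw [← key]
    apply Finset.sum_congr rfl
    intro j hj
    rw [Finset.mem_range] at hj
    simp [hj]

end CP

end Pool.Agent.H26.GH
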