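import Mathlib
import Pool.Agent.H26.GH.G

/-!
# Block H of MP_103a5c_GP, part G2: the resonator is a short polynomial
-/

open MeasureTheory Set Filter Topology
open scoped Real Interval ContDiff

namespace Pool.Agent.H26.GH

open Pool.Agent.H6 Pool.Agent.H14.GP

theorem CP.single {Λ Λ' : ℝ} (c lam : ℝ) (h1 : -Λ' ≤ lam) (h2 : lam ≤ Λ) :
    CP Λ Λ' |c| (fun t => (c : ℂ) * Complex.exp (-((lam * t : ℝ) : ℂ) * Complex.I)) :=
  ⟨Unit, inferInstance, fun _ => c, fun _ => lam, fun t => by simp, fun _ => ⟨h1, h2⟩, by simp⟩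

theorem sum_rpow_half_le (N : ℕ) : ∑ n ∈ Finset.Icc 1 N, (n : ℝ) ^ (-(1 / 2) : ℝ) ≤ 2 * Real.sqrt N := by
  induction N with
  | zero => simp
  | succ N ih =>
    rw [Finset.sum_Icc_succ_top (by omega)]
    have h1 : (((N + 1 : ℕ)) : ℝ) ^ (-(1 / 2) : ℝ) = (Real.sqrt ((N : ℝ) + 1))⁻¹ := by
      rw [Real.rpow_neg (by positivity), Real.sqrt_eq_rpow]
      push_cast
      rfl
    rw [h1]
    set x := Real.sqrt (N : ℝ)
    set y := Real.sqrt ((N : ℝ) + 1) with hy
    have hy0 : 0 < y := Real.sqrt_pos.mpr (by positivity)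
    have hxy : x ≤ y := Real.sqrt_le_sqrt (by linarith)
    have hx0 : 0 ≤ x := Real.sqrt_nonneg _
    have hx2 : x ^ 2 = N := Real.sq_sqrt (by positivity)
    have hy2 : y ^ 2 = N + 1 := Real.sq_sqrt (by positivity)
    have h2 : y⁻¹ ≤ 2 * (y - x) := by
      rw [inv_eq_one_div, div_le_iff₀ hy0]
      nlinarith
    have e : Real.sqrt ((N + 1 : ℕ) : ℝ) = y := by
      rw [hy]; push_cast; rfl
    rw [e]
    linarith

theorem ev_bb (G : ℝ → ℝ) (T t : ℝ) : ev t (bb G T) = ∑ p ∈ (Finset.range (⌊T⌋₊ + 1)).filter Nat.Prime,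
    ((G (Real.log p / Real.log T) * (p : ℝ) ^ (-(1 / 2) : ℝ) : ℝ) : ℂ)
      * Complex.exp (-((Real.log p * t : ℝ) : ℂ) * Complex.I) := by
  unfold Pool.Agent.H14.GP.bb
  rw [map_sum]
  apply Finset.sum_congr rfl
  intro p hp
  have hp' := (Finset.mem_filter.mp hp).2
  unfold ev
  rw [MonoidAlgebra.lift_single]
  rw [Complex.real_smul]
  congr 1
  show (if p = 0 then 0 else Complex.exp (-((t * Real.log p : ℝ) : ℂ) * Complex.I)) = _
  rw [if_neg hp'.ne_zero, mul_comm t]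

theorem cp_bb {G : ℝ → ℝ} {B : ℝ} (hB : ∀ x, |G x| ≤ B) {b : ℝ} (hb : 0 ≤ b) (hG : ∀ x, b < x → G x = 0) {T : ℝ}
    (hT : 1 < T) : CP (b * Real.log T) 0 (2 * B * T ^ (b / 2)) (fun t => ev t (bb G T)) := by
  have hB0 : 0 ≤ B := (abs_nonneg _).trans (hB 0)
  have hT0 : 0 < T := by linarith
  have hL : 0 < Real.log T := Real.log_pos hT
  have h1 : (fun t => ev t (bb G T)) = fun t => ∑ p ∈ (Finset.range (⌊T⌋₊ + 1)).filter Nat.Prime,
    ((G (Real.log p / Real.log T) * (p : ℝ) ^ (-(1 / 2) : ℝ) : ℝ) : ℂ)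
      * Complex.exp (-((Real.log p * t : ℝ) : ℂ) * Complex.I) := by
    ext t; exact ev_bb G T t
  rw [h1]
  have h2 := CP.sum (Λ := b * Real.log T) (Λ' := 0) ((Finset.range (⌊T⌋₊ + 1)).filter Nat.Prime)
    (S := fun p => |G (Real.log p / Real.log T) * (p : ℝ) ^ (-(1 / 2) : ℝ)|)
    (f := fun p t => ((G (Real.log p / Real.log T) * (p : ℝ) ^ (-(1 / 2) : ℝ) : ℝ) : ℂ)
      * Complex.exp (-((Real.log p * t : ℝ) : ℂ) * Complex.I)) (by
      intro p hp
      have hp' := (Finset.mem_filter.mp hp).2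
      by_cases h0 : G (Real.log p / Real.log T) = 0
      · rw [h0]
        simpa using CP.zero (Λ := b * Real.log T) (Λ' := 0) (S := 0) le_rfl
      · apply CP.single
        · rw [neg_zero]
          exact Real.log_natCast_nonneg p
        · by_contra hcon
          apply h0
          apply hG
          rw [lt_div_iff₀ hL]
          linarith)
  refine h2.mono le_rfl le_rfl ?_
  have h3 : ∀ p ∈ (Finset.range (⌊T⌋₊ + 1)).filter Nat.Prime,
      |G (Real.log p / Real.log T) * (p : ℝ) ^ (-(1 / 2) : ℝ)|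
        ≤ if p ∈ Finset.Icc 1 ⌊T ^ b⌋₊ then B * (p : ℝ) ^ (-(1 / 2) : ℝ) else 0 := by
    intro p hp
    have hp' := (Finset.mem_filter.mp hp).2
    have hp0 : (0 : ℝ) < p := by exact_mod_cast hp'.pos
    split_ifs with hm
    · rw [abs_mul, abs_of_nonneg (by positivity : (0 : ℝ) ≤ (p : ℝ) ^ (-(1 / 2) : ℝ))]
      exact mul_le_mul_of_nonneg_right (hB _) (by positivity)
    · have : G (Real.log p / Real.log T) = 0 := by
        apply hG
        rw [lt_div_iff₀ hL]
        rw [Finset.mem_Icc, not_and_or, not_le, not_le] at hm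
        rcases hm with hm | hm
        · have := hp'.pos
          omega
        · have h4 := (Nat.floor_lt (by positivity)).mp hm
          have h5 := Real.log_lt_log (by positivity) h4
          rwa [Real.log_rpow hT0] at h5
      rw [this]
      simp
  refine (Finset.sum_le_sum h3).trans ?_
  rw [← Finset.sum_filter]
  have h4 : ((Finset.range (⌊T⌋₊ + 1)).filter Nat.Prime).filter (fun p => p ∈ Finset.Icc 1 ⌊T ^ b⌋₊)
      ⊆ Finset.Icc 1 ⌊T ^ b⌋₊ := fun p hp => (Finset.mem_filter.mp hp).2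
  calc _ ≤ ∑ p ∈ Finset.Icc 1 ⌊T ^ b⌋₊, B * (p : ℝ) ^ (-(1 / 2) : ℝ) :=
        Finset.sum_le_sum_of_subset_of_nonneg h4 (fun p _ _ => by positivity)
    _ = B * ∑ p ∈ Finset.Icc 1 ⌊T ^ b⌋₊, (p : ℝ) ^ (-(1 / 2) : ℝ) := by rw [Finset.mul_sum]
    _ ≤ B * (2 * Real.sqrt (⌊T ^ b⌋₊ : ℝ)) := mul_le_mul_of_nonneg_left (sum_rpow_half_le _) hB0
    _ ≤ B * (2 * T ^ (b / 2)) := by
        apply mul_le_mul_of_nonneg_left _ hB0
        apply mul_le_mul_of_nonneg_left _ (by norm_num)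
        rw [show b / 2 = b * (1 / 2) by ring, Real.rpow_mul hT0.le, ← Real.sqrt_eq_rpow]
        exact Real.sqrt_le_sqrt (Nat.floor_le (by positivity))
    _ = _ := by ring

/-- weights of the variables -/
def wl (i : ℕ ⊕ ℕ) : ℕ := Sum.elim (fun j => j) (fun _ => 0) i
def wr (i : ℕ ⊕ ℕ) : ℕ := Sum.elim (fun _ => 0) (fun j => j) i

theorem cell_bound {M : ℕ} {θ : ℝ} {G : ℕ → ℝ → ℝ} (hG : Cells M θ G) (j : ℕ) : ∃ B, 0 ≤ B ∧ ∀ x, |G j x| ≤ B := by
  have hcs : HasCompactSupport (G j) := by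
    apply HasCompactSupport.intro (K := Icc (θ * ((j : ℝ) - 1) / M) (θ * j / M)) isCompact_Icc
    intro x hx
    by_contra h
    obtain ⟨h1, h2⟩ := hG.cell j x h
    exact hx ⟨h1.le, h2.le⟩
  obtain ⟨B, hB⟩ := hcs.exists_bound_of_continuous (hG.smooth j).continuous
  exact ⟨B, (norm_nonneg _).trans (hB 0), hB⟩

theorem cp_var {M : ℕ} {θ : ℝ} {G : ℕ → ℝ → ℝ} (hG : Cells M θ G) (i : ℕ ⊕ ℕ) :
    ∃ K, 0 ≤ K ∧ ∀ T : ℝ, 1 < T → CP (wl i * (θ / M * Real.log T)) (wr i * (θ / M * Real.log T))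
      (K * T ^ ((wl i + wr i : ℝ) * (θ / M / 2)))
      (fun t => Sum.elim (fun j => ev t (bb (G j) T)) (fun j => (starRingEnd ℂ) (ev t (bb (G j) T))) i) := by
  have hM : (0 : ℝ) < M := by
    have := hG.M_pos
    exact_mod_cast (by omega : 0 < M)
  have hθ := hG.θ_pos
  rcases i with j | j
  · obtain ⟨B, hB0, hB⟩ := cell_bound hG j
    refine ⟨2 * B, by positivity, fun T hT => ?_⟩
    have h1 := cp_bb hB (b := θ * j / M) (by positivity) (fun x hx => by
      by_contra h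
      exact absurd (hG.cell j x h).2 (by linarith)) hT
    simp only [wl, wr, Sum.elim_inl]
    refine h1.mono (le_of_eq ?_) (le_of_eq ?_) (le_of_eq ?_)
    · ring
    · simp
    · congr 2
      push_cast
      ring
  · obtain ⟨B, hB0, hB⟩ := cell_bound hG j
    refine ⟨2 * B, by positivity, fun T hT => ?_⟩
    have h1 := (cp_bb hB (b := θ * j / M) (by positivity) (fun x hx => by
      by_contra h
      exact absurd (hG.cell j x h).2 (by linarith)) hT).cnj
    simp only [wl, wr, Sum.elim_inr]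
    refine h1.mono (le_of_eq ?_) (le_of_eq ?_) (le_of_eq ?_)
    · simp
    · ring
    · congr 2
      push_cast
      ring

theorem cp_monomial {M : ℕ} {θ : ℝ} {G : ℕ → ℝ → ℝ} (hG : Cells M θ G) (m : (ℕ ⊕ ℕ) →₀ ℕ) (a : ℝ) {N : ℕ}
    (h1 : (m.sum fun i e => wl i * e) ≤ N) (h2 : (m.sum fun i e => wr i * e) ≤ N) :
    ∃ K, 0 ≤ K ∧ ∀ T : ℝ, 1 < T → CP (N * (θ / M * Real.log T)) (N * (θ / M * Real.log T))
      (K * T ^ ((N : ℝ) * (θ / M))) (fun t => evP G T t (MvPolynomial.monomial m a)) := by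
  have hM : (0 : ℝ) < M := by
    have := hG.M_pos
    exact_mod_cast (by omega : 0 < M)
  have hθ := hG.θ_pos
  choose K hK0 hK using cp_var hG
  refine ⟨|a| * ∏ i ∈ m.support, K i ^ m i, ?_, fun T hT => ?_⟩
  · exact mul_nonneg (abs_nonneg _) (Finset.prod_nonneg fun i _ => pow_nonneg (hK0 i) _)
  have hT0 : 0 < T := by linarith
  have hL : 0 < Real.log T := Real.log_pos hT
  have g1 := CP.prod m.support (fun i _ => (hK i T hT).pow (m i))
  have g2 := g1.smul a
  have e : (fun t => evP G T t (MvPolynomial.monomial m a)) = fun t => (a : ℂ) * ∏ i ∈ m.support,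
      (Sum.elim (fun j => ev t (bb (G j) T)) (fun j => (starRingEnd ℂ) (ev t (bb (G j) T))) i) ^ m i := by
    ext t
    unfold evP
    rw [MvPolynomial.aeval_monomial]
    rfl
  rw [e]
  have hs1 : (∑ i ∈ m.support, (m i : ℝ) * (wl i : ℝ)) ≤ N := by
    have : ((m.sum fun i e => wl i * e : ℕ) : ℝ) ≤ (N : ℝ) := by exact_mod_cast h1
    refine le_trans (le_of_eq ?_) this
    unfold Finsupp.sum
    push_cast
    apply Finset.sum_congr rfl
    intro i _
    ring
  have hs2 : (∑ i ∈ m.support, (m i : ℝ) * (wr i : ℝ)) ≤ N := by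
    have : ((m.sum fun i e => wr i * e : ℕ) : ℝ) ≤ (N : ℝ) := by exact_mod_cast h2
    refine le_trans (le_of_eq ?_) this
    unfold Finsupp.sum
    push_cast
    apply Finset.sum_congr rfl
    intro i _
    ring
  refine g2.mono ?_ ?_ ?_
  · calc ∑ i ∈ m.support, (m i : ℝ) * ((wl i : ℝ) * (θ / M * Real.log T))
        = (∑ i ∈ m.support, (m i : ℝ) * (wl i : ℝ)) * (θ / M * Real.log T) := by
          rw [Finset.sum_mul]; apply Finset.sum_congr rfl; intro i _; ring
      _ ≤ _ := mul_le_mul_of_nonneg_right hs1 (by positivity)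
  · calc ∑ i ∈ m.support, (m i : ℝ) * ((wr i : ℝ) * (θ / M * Real.log T))
        = (∑ i ∈ m.support, (m i : ℝ) * (wr i : ℝ)) * (θ / M * Real.log T) := by
          rw [Finset.sum_mul]; apply Finset.sum_congr rfl; intro i _; ring
      _ ≤ _ := mul_le_mul_of_nonneg_right hs2 (by positivity)
  · have e2 : ∏ i ∈ m.support, (K i * T ^ ((wl i + wr i : ℝ) * (θ / M / 2))) ^ m i
        = (∏ i ∈ m.support, K i ^ m i) * T ^ (∑ i ∈ m.support, (m i : ℝ) * ((wl i + wr i : ℝ) * (θ / M / 2))) := by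
      rw [Real.rpow_sum_of_pos hT0, ← Finset.prod_mul_distrib]
      apply Finset.prod_congr rfl
      intro i _
      rw [mul_pow, ← Real.rpow_natCast (T ^ _), ← Real.rpow_mul hT0.le]
      congr 2
      ring
    rw [e2, ← mul_assoc]
    apply mul_le_mul_of_nonneg_left _ (mul_nonneg (abs_nonneg _) (Finset.prod_nonneg fun i _ => pow_nonneg (hK0 i) _))
    apply Real.rpow_le_rpow_of_exponent_le hT.le
    calc ∑ i ∈ m.support, (m i : ℝ) * ((wl i + wr i : ℝ) * (θ / M / 2))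
        = ((∑ i ∈ m.support, (m i : ℝ) * (wl i : ℝ)) + ∑ i ∈ m.support, (m i : ℝ) * (wr i : ℝ)) * (θ / M / 2) := by
          rw [← Finset.sum_add_distrib, Finset.sum_mul]; apply Finset.sum_congr rfl; intro i _; ring
      _ ≤ (N + N) * (θ / M / 2) := mul_le_mul_of_nonneg_right (add_le_add hs1 hs2) (by positivity)
      _ = _ := by ring

/-- a polynomial of weighted bidegree `≤ N` in the prime sums -/
theorem cp_evP {M : ℕ} {θ : ℝ} {G : ℕ → ℝ → ℝ} (hG : Cells M θ G) {N : ℕ} {P : PP} (hP : Deg2 N P) :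
    ∃ K, 0 ≤ K ∧ ∀ T : ℝ, 1 < T → CP (N * (θ / M * Real.log T)) (N * (θ / M * Real.log T))
      (K * T ^ ((N : ℝ) * (θ / M))) (fun t => evP G T t P) := by
  classical
  have h1 : ∀ m ∈ P.support, (m.sum fun i e => wl i * e) ≤ N ∧ (m.sum fun i e => wr i * e) ≤ N := by
    intro m hm
    obtain ⟨g1, g2⟩ := hP m hm
    constructor
    · refine le_trans (le_of_eq ?_) g1
      unfold Finsupp.sum
      apply Finset.sum_congr rfl
      rintro (j | j) _ <;> simp [wl]
    · refine le_trans (le_of_eq ?_) g2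
      unfold Finsupp.sum
      apply Finset.sum_congr rfl
      rintro (j | j) _ <;> simp [wr]
  have h2 : ∀ m : (ℕ ⊕ ℕ) →₀ ℕ, ∃ K, 0 ≤ K ∧ (m ∈ P.support → ∀ T : ℝ, 1 < T →
      CP (N * (θ / M * Real.log T)) (N * (θ / M * Real.log T))
      (K * T ^ ((N : ℝ) * (θ / M))) (fun t => evP G T t (MvPolynomial.monomial m (P.coeff m)))) := by
    intro m
    by_cases hm : m ∈ P.support
    · obtain ⟨K, hK0, hK⟩ := cp_monomial hG m (P.coeff m) (h1 m hm).1 (h1 m hm).2
      exact ⟨K, hK0, fun _ => hK⟩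
    · exact ⟨0, le_rfl, fun h => absurd h hm⟩
  choose K hK0 hK using h2
  refine ⟨∑ m ∈ P.support, K m, Finset.sum_nonneg fun m _ => hK0 m, fun T hT => ?_⟩
  have h3 := CP.sum P.support (fun m hm => hK m hm T hT)
  have e : (fun t => evP G T t P) = fun t => ∑ m ∈ P.support, evP G T t (MvPolynomial.monomial m (P.coeff m)) := by
    ext t
    conv_lhs => rw [P.as_sum]
    rw [map_sum]
  rw [e, Finset.sum_mul]
  exact h3

/-- the square of the real part of such a polynomial is a short real trigonometric polynomial -/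
theorem shortPoly_sq {M : ℕ} {θ : ℝ} {G : ℕ → ℝ → ℝ} (hG : Cells M θ G) {P : PP} (hP : Deg2 (M - 1) P) :
    ShortPoly (2 * θ) (1 - 2 * θ) (fun T t => (evP G T t P).re ^ 2) := by
  obtain ⟨K, hK0, hK⟩ := cp_evP hG hP
  have hM2 := hG.M_pos
  have hM : (0 : ℝ) < M := by exact_mod_cast (by omega : 0 < M)
  have hθ := hG.θ_pos
  have hpos : 0 < 2 * θ / M := by positivity
  unfold ShortPoly
  filter_upwards [eventually_gt_atTop (1 : ℝ), (tendsto_rpow_atTop hpos).eventually_ge_atTop (K ^ 2)] with T hT hTK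
  have hT0 : 0 < T := by linarith
  have hL : 0 < Real.log T := Real.log_pos hT
  obtain ⟨h1, h2⟩ := (hK T hT).re_sq
  obtain ⟨J, c, lam, g1, g2, g3⟩ := h1.exists_trig
  have hMc : ((M - 1 : ℕ) : ℝ) = M - 1 := by
    rw [Nat.cast_sub (by omega)]; simp
  refine ⟨J, c, lam, fun t => ?_, fun j hj => ?_, ?_⟩
  · rw [← g1 t, h2 t]
  · refine (g2 j hj).trans ?_
    rw [hMc]
    have : ((M : ℝ) - 1) * (θ / M * Real.log T) ≤ θ * Real.log T := by
      have e : ((M : ℝ) - 1) * (θ / M * Real.log T) = θ * Real.log T - θ / M * Real.log T := by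
        field_simp
      rw [e]
      have : 0 ≤ θ / M * Real.log T := by positivity
      linarith
    linarith
  · refine g3.trans ?_
    rw [hMc, mul_pow, ← Real.rpow_natCast (T ^ _), ← Real.rpow_mul hT0.le]
    calc K ^ 2 * T ^ (((M : ℝ) - 1) * (θ / M) * ((2 : ℕ) : ℝ)) ≤ T ^ (2 * θ / M) * T ^ (((M : ℝ) - 1) * (θ / M) * ((2 : ℕ) : ℝ)) :=
          mul_le_mul_of_nonneg_right hTK (by positivity)
      _ = T ^ (1 - (1 - 2 * θ)) := by
          rw [← Real.rpow_add hT0]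
          congr 1
          push_cast
          field_simp
          ring

end Pool.Agent.H26.GH
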